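import Pool.Agent.Work.MP_59b97c_co.Main

open Pool.Agent.Work.MP_59b97c_co

namespace Pool.Agent.Results.MP_59b97c_co.Type103

/-- Every benzel with nonnegative Conway-Lagarias invariant has a tiling by right stones and
bones. -/
theorem result (a b : ℤ) (ha : 2 ≤ a) (hab : a ≤ 2 * b) (hb : 2 ≤ b) (hba : b ≤ 2 * a)
    (hI : 0 ≤ clInvariant a b) : HasType103Tiling (benzel a b) :=
  main a b ha hab hb hba hI

end Pool.Agent.Results.MP_59b97c_co.Type103
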